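import Mathlib
set_option autoImplicit false
namespace Pool.Agent.Results.MP_e403d1_gt.Counter
open Set Topology Filter BoundedContinuousFunction

def IsMinimal (G : Type) [AddCommGroup G] [t : TopologicalSpace G] : Prop :=
  T2Space G ∧ ∀ s : TopologicalSpace G, @IsTopologicalAddGroup G s _ → @T2Space G s → t ≤ s → s = t

def IsUFSS (G : Type) [AddCommGroup G] [TopologicalSpace G] : Prop :=
  T2Space G ∧ ∃ U ∈ 𝓝 (0 : G), (∀ x ∈ U, -x ∈ U) ∧
    (𝓝 (0 : G)).HasBasis (fun n : ℕ => 1 ≤ n) fun n => {x | ∀ k ∈ Icc 1 n, k • x ∈ U}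

def AlmostMinimal (G : Type) [AddCommGroup G] [TopologicalSpace G] : Prop :=
  ∃ N : AddSubgroup G, IsClosed (N : Set G) ∧ IsMinimal N ∧ IsUFSS (G ⧸ N)

abbrev I := ℕ × ℕ
abbrev K := I → ZMod 4

lemma minimal {A : Type} [AddCommGroup A] [t : TopologicalSpace A] [ht : IsTopologicalAddGroup A]
    (j : A →+ K) (hj : IsEmbedding j) (h : ∀ y : K, 2 • y = 0 → y ∈ range j) : IsMinimal A := by
  refine ⟨hj.t2Space, fun s hs h2 hts => IsTopologicalAddGroup.ext hs ht (le_antisymm ?_
    (nhds_mono hts))⟩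
  have h1 (F : Filter A) [F.NeBot] (hF : F ≤ @nhds A s 0) (y : K) (hy : 2 • y = 0)
      (h3 : Tendsto j F (𝓝 y)) : F ≤ @nhds A t 0 ∧ y = 0 := by
    obtain ⟨a, rfl⟩ := h y hy
    have h4 : F ≤ @nhds A t a := (@IsEmbedding.tendsto_nhds_iff _ _ _ _ t _ id _ _ hj).2 h3
    have h5 : F ≤ @nhds A s a := h4.trans (nhds_mono hts)
    obtain rfl : a = 0 := by
      letI := s
      exact tendsto_nhds_unique (f := id) h5 hF
    exact ⟨h4, map_zero j⟩
  refine le_iff_ultrafilter.2 fun F hF => ?_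
  obtain ⟨y, -, hy⟩ := isCompact_univ.ultrafilter_le_nhds (F.map j) (by simp)
  refine (h1 F hF y (h1 (map (2 • ·) F) ?_ _ ?_ ?_).2 hy).1
  · letI := s
    exact (Tendsto.const_smul (f := id) hF 2).trans_eq (by rw [smul_zero])
  · ext i
    simp only [Pi.smul_apply, Pi.zero_apply]
    generalize y i = z
    revert z
    decide
  · exact tendsto_map' ((Tendsto.const_smul (f := j) hy 2).congr fun x => (map_nsmul j 2 x).symm)

def N : AddSubgroup K where
  carrier := {k | {i | 2 • k i ≠ 0}.Finite}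
  zero_mem' := by simp
  add_mem' {a b} ha hb := (ha.union hb).subset fun i hi => by
    by_contra h
    simp only [mem_union, mem_ofPred_eq, not_or, not_not] at h
    exact hi (by rw [Pi.add_apply, smul_add, h.1, h.2, add_zero])
  neg_mem' {a} ha := by simpa using ha

def D : AddSubgroup (I →ᵇ ℝ) where
  carrier := {b | ∀ i, ∃ z : ℤ, (z : ℝ) = b i * (i.2 + 1)}
  zero_mem' i := ⟨0, by simp⟩
  add_mem' {a b} ha hb i := by
    obtain ⟨x, hx⟩ := ha i
    obtain ⟨y, hy⟩ := hb i
    exact ⟨x + y, by simp [hx, hy, add_mul]⟩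
  neg_mem' {a} ha i := by
    obtain ⟨x, hx⟩ := ha i
    exact ⟨-x, by simp [hx]⟩

noncomputable def c (i : I) : D →+ ℤ := AddMonoidHom.mk' (fun d => (d.2 i).choose) fun a b => by
  apply Int.cast_injective (α := ℝ)
  rw [Int.cast_add, (a.2 i).choose_spec, (b.2 i).choose_spec, ((a + b).2 i).choose_spec]
  simp [add_mul]

lemma c_eq (i : I) (d : D) : (c i d : ℝ) = d.1 i * (i.2 + 1) := (d.2 i).choose_spec

lemma c_cont (i : I) : Continuous (c i) := by
  rw [Int.isClosedEmbedding_coe_real.isEmbedding.continuous_iff]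
  simp only [Function.comp_def, c_eq]
  fun_prop

abbrev G := N × D

lemma ev_cont (i : I) : Continuous fun x : G => x.1.1 i :=
  (continuous_apply i).comp (continuous_subtype_val.comp continuous_fst)

lemma am : AlmostMinimal G := by
  have hc : IsClosed ((AddMonoidHom.snd N D).ker : Set G) := isClosed_eq continuous_snd continuous_const
  refine ⟨_, hc, minimal (N.subtype.comp ((AddMonoidHom.fst N D).comp (AddSubgroup.subtype _)))
    (IsEmbedding.subtypeVal.comp (IsEmbedding.of_leftInverse (f := fun x => ⟨(x, 0), rfl⟩) ?_ ?_ ?_))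
    fun y hy => ⟨⟨(⟨y, ?_⟩, 0), rfl⟩, rfl⟩, inferInstance, ?_⟩
  · rintro ⟨⟨a, b⟩, (rfl : b = 0)⟩
    rfl
  · fun_prop
  · exact continuous_fst.comp continuous_subtype_val
  · exact finite_empty.subset fun i hi => hi (congrFun hy i)
  let p := QuotientAddGroup.kerLift (AddMonoidHom.snd N D)
  have h1 : 𝓝 0 = comap p (𝓝 0) := by
    rw [← QuotientAddGroup.mk_zero, QuotientAddGroup.nhds_eq]
    refine le_antisymm (map_le_iff_le_comap.1 (continuous_snd.tendsto (0 : G))) ?_
    refine le_of_eq_of_le ?_ (comap_map (QuotientAddGroup.kerLift_injective _)).le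
    exact congrArg _ (map_snd_nhds (0 : G)).symm
  have h2 := (Metric.nhds_basis_ball_inv_nat_pos (x := (0 : D))).comap p
  rw [← h1] at h2
  refine ⟨p ⁻¹' Metric.ball 0 1, by simpa using h2.mem_of_mem one_pos, by simp,
    h2.congr (fun _ => Iff.rfl) fun n hn => ?_⟩
  have h3 : (0 : ℝ) < n := Nat.cast_pos.2 hn
  ext x
  have h4 (k : ℕ) : ‖p (k • x)‖ = k * ‖p x‖ := by
    rw [map_nsmul, ← AddSubgroup.norm_coe, AddSubgroup.coe_nsmul, ← Nat.cast_smul_eq_nsmul ℝ,
      norm_smul, Real.norm_natCast, AddSubgroup.norm_coe]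
  simp only [mem_preimage, mem_ball_zero_iff, mem_ofPred_eq, lt_div_iff₀' h3]
  refine ⟨fun h k hk => (h4 k).trans_lt (lt_of_le_of_lt ?_ h),
    fun h => (h4 n).symm.trans_lt (h n ⟨hn, le_rfl⟩)⟩
  exact mul_le_mul_of_nonneg_right (Nat.cast_le.2 hk.2) (norm_nonneg _)

def H : AddSubgroup G where
  carrier := {g | ∀ p n, g.1.1 (p, n) - g.1.1 (p, n + 1) = c (p, n) g.2}
  zero_mem' := by simp
  add_mem' {a b} ha hb p n := by
    simp only [Prod.snd_add, map_add, Int.cast_add, ← ha p n, ← hb p n, Prod.fst_add,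
      AddSubgroup.coe_add, Pi.add_apply]
    ring
  neg_mem' {a} ha p n := by
    simp only [Prod.snd_neg, map_neg, Int.cast_neg, ← ha p n, Prod.fst_neg,
      AddSubgroup.coe_neg, Pi.neg_apply]
    ring

lemma sing (i j : I) : ‖(Pi.single i (1 / ((i.2 : ℝ) + 1)) : I → ℝ) j‖ ≤ 1 / ((i.2 : ℝ) + 1) := by
  rw [Pi.single_apply]
  split_ifs
  · exact (Real.norm_of_nonneg (by positivity)).le
  · rw [norm_zero]; positivity

noncomputable def e (i : I) : D :=
  ⟨ofNormedAddCommGroupDiscrete (Pi.single i (1 / ((i.2 : ℝ) + 1))) _ (sing i),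
    fun j => by
      by_cases h : j = i
      · exact ⟨1, by simp [h]; field_simp⟩
      · exact ⟨0, by simp [h]⟩⟩

lemma c_e (i j : I) : c j (e i) = if j = i then 1 else 0 := by
  apply Int.cast_injective (α := ℝ)
  rw [c_eq]
  split_ifs with h <;> simp [e, h]
  field_simp

lemma norm_e (i : I) : ‖e i‖ ≤ 1 / ((i.2 : ℝ) + 1) :=
  (BoundedContinuousFunction.norm_le (by positivity)).2 (sing i)

noncomputable def h (p m : ℕ) : H :=
  ⟨(⟨fun i => if i.1 = p ∧ i.2 ≤ m then 1 else 0,
    ((finite_singleton p).prod (finite_Iic m)).subset fun i hi => by_contra fun h =>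
      hi (by simp only [if_neg (c := i.1 = p ∧ i.2 ≤ m) h, smul_zero])⟩, e (p, m)), fun q n => by
    simp only [c_e, Prod.mk.injEq]
    split_ifs <;> first | omega | simp⟩

lemma even (g : H) (h : g.1.2 = 0) (p : ℕ) : 2 • g.1.1.1 (p, 0) = 0 := by
  have h1 (n : ℕ) : g.1.1.1 (p, n) = g.1.1.1 (p, 0) := by
    induction n with
    | zero => rfl
    | succ n ih =>
      have := g.2 p n
      rw [h, map_zero, Int.cast_zero, sub_eq_zero] at this
      exact this ▸ ih
  by_contra h2
  refine infinite_of_injective_forall_mem (f := fun n => (p, n)) (Prod.mk_right_injective p)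
    (fun n => ?_) g.1.1.2
  exact fun h => h2 (h1 n ▸ h)

lemma tors (M : AddSubgroup H) (hM : IsMinimal M) (x : M) : x.1.1.2 = 0 := by
  let φ : M →+ K × (I → ℤ_[2]) := AddMonoidHom.mk' (fun x => (x.1.1.1.1, fun i => c i x.1.1.2))
    fun a b => by ext <;> simp
  have h1 : Function.Injective φ := fun a b h => by
    refine Subtype.ext (Subtype.ext (Prod.ext (Subtype.ext (congrArg Prod.fst h)) ?_))
    ext i
    have := c_eq i a.1.1.2
    rw [Int.cast_injective (congrFun (congrArg Prod.snd h) i), c_eq] at this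
    exact (mul_right_cancel₀ (by positivity) this).symm
  have h2 : Continuous φ := by
    refine Continuous.prodMk (by fun_prop) (continuous_pi fun i => ?_)
    exact continuous_of_discreteTopology.comp ((c_cont i).comp (by fun_prop))
  have h3 := hM.2 _ (topologicalAddGroup_induced φ)
    (@IsEmbedding.t2Space _ _ (.induced φ inferInstance) _ _ _ (h1.isEmbedding_induced))
    h2.le_induced
  have h4 : Tendsto (fun n : ℕ => 2 ^ n • x) atTop (𝓝 0) := by
    rw [(IsInducing.mk h3.symm).tendsto_nhds_iff, map_zero]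
    simp only [Function.comp_def, map_nsmul]
    refine Tendsto.prodMk_nhds (tendsto_const_nhds.congr' ?_) ?_
    · filter_upwards [eventually_ge_atTop 2] with n hn
      obtain ⟨k, rfl⟩ := exists_add_of_le hn
      ext i
      simp [pow_add, show (4 : ZMod 4) = 0 from rfl]
    · have := (tendsto_pow_atTop_nhds_zero_of_norm_lt_one (x := ((2 : ℕ) : ℤ_[2]))
        (by rw [PadicInt.norm_p]; norm_num)).smul_const (φ x).2
      rw [zero_smul] at this
      exact this.congr fun n => by rw [← Nat.cast_pow, Nat.cast_smul_eq_nsmul]; rfl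
  have h5 := ((by fun_prop : Continuous fun x : M => ‖x.1.1.2.1‖).tendsto 0).comp h4
  have h6 : ‖x.1.1.2.1‖ ≤ ‖(0 : M).1.1.2.1‖ := ge_of_tendsto' h5 fun n => by
    change _ ≤ ‖2 ^ n • x.1.1.2.1‖
    rw [← Nat.cast_smul_eq_nsmul ℝ, norm_smul, Real.norm_natCast]
    exact le_mul_of_one_le_left (norm_nonneg _) (by exact_mod_cast Nat.one_le_two_pow)
  simpa using h6

theorem result : ∃ (G : Type) (_ : AddCommGroup G) (_ : TopologicalSpace G),
    IsTopologicalAddGroup G ∧ T2Space G ∧ AlmostMinimal G ∧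
      ∃ H : AddSubgroup G, IsClosed (H : Set G) ∧ ¬ AlmostMinimal H := by
  refine ⟨G, inferInstance, inferInstance, inferInstance, inferInstance, am, H, ?_, ?_⟩
  · simp only [H, AddSubgroup.coe_set_mk, AddSubmonoid.coe_set_mk, AddSubsemigroup.coe_set_mk,
      ofPred_forall]
    refine isClosed_iInter fun p => isClosed_iInter fun n => isClosed_eq ?_ ?_
    · exact (ev_cont _).sub (ev_cont _)
    exact continuous_of_discreteTopology.comp ((c_cont _).comp continuous_snd)
  rintro ⟨M, -, hM, -, U, hU, -, hb⟩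
  obtain ⟨V, hV, h1⟩ := (mem_nhds_subtype _ _ _).1
    ((QuotientAddGroup.isQuotientMap_mk M).continuous.tendsto 0 hU)
  obtain ⟨V₁, h2, V₂, h3, h4⟩ := mem_nhds_prod_iff.1 hV
  obtain ⟨W, h5, h6⟩ := (mem_nhds_subtype _ _ _).1 h2
  rw [nhds_pi] at h5
  obtain ⟨J, hJ, t, ht, h7⟩ := mem_pi.1 h5
  obtain ⟨p, hp⟩ := (hJ.image Prod.fst).exists_notMem
  have h8 : Tendsto (fun m => (h p m : H ⧸ M)) atTop (𝓝 0) := by
    refine hb.tendsto_right_iff.2 fun n _ => (eventually_all_finite (finite_Icc 1 n)).2 fun k _ => ?_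
    have h8 := (squeeze_zero_norm (fun m => norm_e (p, m))
      tendsto_one_div_add_atTop_nhds_zero_nat).const_smul k
    rw [smul_zero] at h8
    filter_upwards [h8 h3] with m hm
    refine h1 (a := k • h p m) (h4 ⟨h6 (h7 fun i hi => ?_), hm⟩)
    have : i.1 ≠ p := fun h => hp ⟨i, hi, h⟩
    simpa [h, this] using mem_of_mem_nhds (ht i)
  let ψ : H →+ ZMod 4 := AddMonoidHom.mk' (fun g => 2 • g.1.1.1 (p, 0)) fun a b => smul_add _ _ _
  have h9 : Continuous (QuotientAddGroup.lift M ψ fun x hx => even x (tors M hM ⟨x, hx⟩) p) :=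
    (QuotientAddGroup.isQuotientMap_mk M).continuous_iff.2
      (((ev_cont (p, 0)).comp continuous_subtype_val).const_smul 2)
  have h10 := (h9.tendsto 0).comp h8
  rw [map_zero] at h10
  refine absurd (tendsto_nhds_unique h10 (tendsto_const_nhds.congr fun m => ?_))
    (by decide : (0 : ZMod 4) ≠ 2)
  simp [ψ, h]

end Pool.Agent.Results.MP_e403d1_gt.Counter
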